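import Pool.Agent.Helper44.HC.Final

/-!
# MP_1f3233_gt, Q1: the answer is No

There is a σ-ideal on the Hilbert cube `ℕ → [0,1]` which is maximal among the non-trivial
topologically invariant σ-ideals with Borel base and which is different from the ideal of
meager sets (it even contains a comeager set).

Definitions (file `Pool/Agent/Helper44/HC/Abstract.lean`), for a topological space `X` and a
family `I` of subsets of `X`:

* `HCube.IsSigmaIdeal I`: `∅ ∈ I`, and `I` is closed under subsets and under countable unions;
* `HCube.IsTopInvariant I`: `h '' A ∈ I` for every `A ∈ I` and every homeomorphism `h : X ≃ₜ X`;
* `HCube.HasBorelBase I`: every `A ∈ I` is contained in some Borel set `B ∈ I`;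
* `HCube.IsNontrivial I`: `X ∉ I` and `I ≠ {∅}`;
* `HCube.IsMaximalInvariant I`: `I` has the four properties above, and every `I' ⊇ I` that has
  the four properties is equal to `I`.

Idea of the proof: a closed set `K` of the cube is called essential if some cycle (mod 2 affine
chains, augmented) in the complement of `K` does not bound there. Essential closed sets are
invariant under homeomorphisms of the cube, and if a finite (hence countable-in-the-forcing-sense)
union is essential then one of the pieces is (Mayer–Vietoris). For a closed essential `K` a
witnessing cycle may be taken in finitely many coordinates; using permutations of coordinates,
one gets countably many homeomorphisms `h n` such that every essential closed set `K'` meets some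
`h n '' K` in an essential set (product and slant product of chains). The
ideal generated by the Borel sets avoided by the generic point of the forcing with essential
closed sets is then the required maximal ideal.
-/

namespace Pool.Agent.Results.MP_1f3233_gt.MaximalIdeal

/-- **MP_1f3233_gt Q1, negated form.** Some σ-ideal on the Hilbert cube that is maximal among the
non-trivial topologically invariant σ-ideals with Borel base is different from the ideal of meager
sets; moreover it contains a comeager set. -/
theorem result : ∃ I : Set (Set (ℕ → unitInterval)), HCube.IsMaximalInvariant I ∧
    I ≠ {A | IsMeagre A} ∧ ∃ A ∈ I, IsMeagre Aᶜ :=
  HCube.final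

end Pool.Agent.Results.MP_1f3233_gt.MaximalIdeal
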